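import Pool.Agent.H32.CH.Targets

/-!
D2 (MP_aaa807_co): a T-vertex has at most one neighbour which is a T-vertex.
-/

set_option autoImplicit false

namespace Pool.Agent.H70.CH.D2

open Finset Pool.Agent.H32.CH
open scoped Classical

variable {V : Type} [Fintype V] {G : SimpleGraph V} {A : Finset V}

/-- A vertex outside A with two tokens has no neighbour outside A. -/
theorem no_out (h4 : T_M4) (hd : Deg4 G) (ht : TF G) (hm : MinC G A) {b x y : V} (hb : b ∉ A)
    (hxy : x ≠ y) (hx : Tk G A x) (hy : Tk G A y) (h1 : G.Adj b x) (h2 : G.Adj b y) :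
    dg G Aᶜ b = 0 := by
  have h := h4 V G A hd ht hm b hb
  have h3 : ({x, y} : Finset V) ⊆ A.filter (fun x => dg G A x = 2 ∧ G.Adj b x) := by
    intro z hz
    simp only [mem_insert, mem_singleton] at hz
    rcases hz with rfl | rfl
    · exact mem_filter.2 ⟨hx.1, hx.2, h1⟩
    · exact mem_filter.2 ⟨hy.1, hy.2, h2⟩
  have h5 := card_le_card h3
  rw [card_pair hxy] at h5
  omega

/-- Two adjacent T-vertices see the two ends of an edge outside A. -/
theorem edge (h4 : T_M4) (h6 : T_M6) (hd : Deg4 G) (ht : TF G) (h5 : NP5 G) (he : Ext G A)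
    {x y : V} (hx : TT G A x) (hy : TT G A y) (hxy : (DG G A).Adj x y) :
    ∃ b b', b ∉ A ∧ b' ∉ A ∧ G.Adj b b' ∧ G.Adj x b ∧ G.Adj y b' := by
  obtain ⟨hne, tx, ty, k, k', hk, hk', hkk, hxk, hyk⟩ := hxy
  rcases hkk with rfl | hkk
  · exfalso
    have hk0 := no_out h4 hd ht he.1 hk hne tx ty hxk.symm hyk.symm
    obtain ⟨-, bx, hbx, hxb⟩ := hx
    obtain ⟨-, b, hb, hyb⟩ := hy
    have h1 : bx ≠ k := by
      rintro rfl
      exact hbx.2 hk0
    have h2 : b ≠ k := by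
      rintro rfl
      exact hb.2 hk0
    by_cases h3 : bx = b
    · subst h3
      exact hbx.2 (no_out h4 hd ht he.1 hbx.1 hne tx ty hxb.symm hyb.symm)
    · by_cases h7 : G.Adj bx b
      · exact h5 bx x k y b hxb.symm hxk hyk.symm hyb h7.symm
      · exact h6 V G A hd ht he x y bx k b tx ty hne hbx hb hk h1 h2 h3 h7 hxb.symm hxk hyk.symm
          hyb
  · exact ⟨k, k', hk, hk', hkk, hxk, hyk⟩

theorem pf_D2 (h3 : T_M3) (h4 : T_M4) (h5 : T_M5) (h6 : T_M6) : T_D2 := by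
  intro V _ G A hd ht hp he x y z hx hy hz hxy hxz
  obtain ⟨b, b', hb, hb', hbb, hxb, hyb⟩ := edge h4 h6 hd ht hp he hx hy hxy
  obtain ⟨c, c', hc, hc', hcc, hxc, hzc⟩ := edge h4 h6 hd ht hp he hx hz hxz
  have kb : K2v G A b := ⟨hb, (dg_pos.2 ⟨b', mem_compl.2 hb', hbb⟩).ne'⟩
  have kc : K2v G A c := ⟨hc, (dg_pos.2 ⟨c', mem_compl.2 hc', hcc⟩).ne'⟩
  have h1 : b = c := by
    by_contra hne
    exact h5 V G A hd ht he x b c hx.1 kb kc hne hxb hxc
  subst h1
  have h2 : b' = c' := by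
    by_contra hne
    have h7 := dg_ge_two hne (mem_compl.2 hb') (mem_compl.2 hc') hbb hcc
    have h8 := h3 V G A hd he b hb
    omega
  subst h2
  by_contra hne
  have h9 := no_out h4 hd ht he.1 hb' hne hy.1 hz.1 hyb.symm hzc.symm
  have h10 := dg_pos.2 ⟨b, mem_compl.2 hb, hbb.symm⟩
  omega

end Pool.Agent.H70.CH.D2
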